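import Pool.Agent.Y110.FJ.Stm5

/-!
Project FJ, job FJ-EPK (helper983): functions periodic near both ends of the integers, extended by
the integers.
-/

set_option autoImplicit false

namespace Pool.Agent.Y983.FJ.EPK

open Pool.Agent.Y462.SS (Closed)
open Pool.Agent.Y70.FJ
open Pool.Agent.Y110.FJ

theorem ev_per0 {Γ : Type} {g : ℤ → Γ} {b : ℤ} {m : ℕ} (hg : ∀ n, b ≤ n → g (n + m) = g n)
    (k : ℕ) : ∀ n : ℤ, b ≤ n → g (n + m * k) = g n := by
  induction k with
  | zero => intro n _; simp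
  | succ k ih =>
    intro n hn
    have h0 : (0 : ℤ) ≤ m * k := by positivity
    have h2 : n + (m : ℤ) * ((k + 1 : ℕ) : ℤ) = (n + m * k) + m := by push_cast; ring
    rw [h2, hg _ (by linarith), ih n hn]

/-- functions which are eventually periodic -/
theorem ev_per {Γ : Type} {g : ℤ → Γ} {b : ℤ} {m : ℕ} (hg : ∀ n, b ≤ n → g (n + m) = g n)
    {A A' : ℤ} (hA : b ≤ A) (hA' : b ≤ A') (hd : (m : ℤ) ∣ A' - A) : g A = g A' := by
  obtain ⟨k, hk⟩ := hd
  rcases le_total 0 k with h | h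
  · obtain ⟨l, rfl⟩ := Int.eq_ofNat_of_zero_le h
    have h1 : A' = A + m * l := by linarith
    rw [h1, ev_per0 hg l A hA]
  · obtain ⟨l, hl⟩ := Int.eq_ofNat_of_zero_le (neg_nonneg.mpr h)
    have h1 : A = A' + m * l := by
      rw [← hl]
      linarith
    rw [h1, ev_per0 hg l A' hA']

section
variable (Γ : Type) [Group Γ] (m : ℕ)

/-- the periodic elements -/
def Qp : Subgroup (U (Γ × Γ)) where
  carrier := {x | ∀ n : ℤ, x.f (n + m) = x.f n}
  mul_mem' := by
    intro x y hx hy n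
    have h1 : n + m - x.m = (n - x.m) + m := by ring
    rw [U.mul_f, U.mul_f, hx n, h1, hy]
  one_mem' := fun n => rfl
  inv_mem' := by
    intro x hx n
    have h1 : n + m + x.m = (n + x.m) + m := by ring
    rw [U.inv_f, U.inv_f, h1, hx]

/-- elements which are periodic near both ends, with the periodic functions -/
def Km : Subgroup (U Γ × U (Γ × Γ)) where
  carrier := {x | x.1.m = x.2.m ∧ (∀ n : ℤ, x.2.f (n + m) = x.2.f n) ∧
    ∃ b : ℤ, ∀ n : ℤ, b ≤ n → x.1.f n = (x.2.f n).1 ∧ x.1.f (-n) = (x.2.f (-n)).2}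
  mul_mem' := by
    rintro x y ⟨hx1, hx2, bx, hx3⟩ ⟨hy1, hy2, bY, hy3⟩
    refine ⟨?_, (Qp Γ m).mul_mem hx2 hy2, max bx (bY + |x.1.m|), fun n hn => ?_⟩
    · change x.1.m + y.1.m = x.2.m + y.2.m
      rw [hx1, hy1]
    · have h1 := le_max_left bx (bY + |x.1.m|)
      have h2 := le_max_right bx (bY + |x.1.m|)
      have h3 := le_abs_self x.1.m
      have h4 := neg_abs_le x.1.m
      have e1 := hx3 n (by linarith)
      have e2 := hy3 (n - x.1.m) (by linarith)
      have e3 := hy3 (n + x.1.m) (by linarith)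
      constructor
      · change x.1.f n * y.1.f (n - x.1.m) = (x.2.f n).1 * (y.2.f (n - x.2.m)).1
        rw [e1.1, e2.1, hx1]
      · change x.1.f (-n) * y.1.f (-n - x.1.m) = (x.2.f (-n)).2 * (y.2.f (-n - x.2.m)).2
        have h5 : -n - x.1.m = -(n + x.1.m) := by ring
        rw [← hx1, h5, e1.2, e3.2]
  one_mem' := ⟨rfl, fun n => rfl, 0, fun n _ => ⟨rfl, rfl⟩⟩
  inv_mem' := by
    rintro x ⟨hx1, hx2, bx, hx3⟩
    refine ⟨?_, (Qp Γ m).inv_mem hx2, bx + |x.1.m|, fun n hn => ?_⟩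
    · change -x.1.m = -x.2.m
      rw [hx1]
    · have h3 := le_abs_self x.1.m
      have h4 := neg_abs_le x.1.m
      have e2 := hx3 (n + x.1.m) (by linarith)
      have e3 := hx3 (n - x.1.m) (by linarith)
      constructor
      · change (x.1.f (n + x.1.m))⁻¹ = ((x.2.f (n + x.2.m)).1)⁻¹
        rw [e2.1, hx1]
      · change (x.1.f (-n + x.1.m))⁻¹ = ((x.2.f (-n + x.2.m)).2)⁻¹
        have h5 : -n + x.1.m = -(n - x.1.m) := by ring
        rw [← hx1, h5, e3.2]

variable {Γ m}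

/-- the functions with finite support -/
def jm : N0 Γ →* Km Γ m where
  toFun f := ⟨(⟨f.1, 0⟩, 1), by
    obtain ⟨a, ha⟩ := f.2.bddBelow
    obtain ⟨b, hb⟩ := f.2.bddAbove
    refine ⟨rfl, fun n => rfl, max (b + 1) (1 - a), fun n hn => ⟨?_, ?_⟩⟩
    · change f.1 n = 1
      by_contra h
      have h1 : n ≤ b := hb h
      have h2 := le_max_left (b + 1) (1 - a)
      omega
    · change f.1 (-n) = 1
      by_contra h
      have h1 : a ≤ -n := ha h
      have h2 := le_max_right (b + 1) (1 - a)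
      omega⟩
  map_one' := rfl
  map_mul' f g := by
    refine Subtype.ext (Prod.ext (U.ext (funext fun n => ?_) ?_) ?_)
    · simp
    · simp
    · simp

/-- the quotient -/
def qm : Km Γ m →* Qp Γ m where
  toFun x := ⟨x.1.2, x.2.2.1⟩
  map_one' := rfl
  map_mul' x y := rfl

theorem jm_range : (jm : N0 Γ →* Km Γ m).range = (qm : Km Γ m →* _).ker := by
  ext x
  constructor
  · rintro ⟨f, rfl⟩
    rfl
  · intro hx
    have h1 : x.1.2 = 1 := congrArg Subtype.val hx
    obtain ⟨h2, _, b, hb⟩ := x.2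
    have h3 : x.1.1.m = 0 := by rw [h2, h1]; rfl
    refine ⟨⟨x.1.1.f, (Set.finite_Icc (-b) b).subset fun n hn => ?_⟩,
      Subtype.ext (Prod.ext (U.ext rfl h3.symm) h1.symm)⟩
    constructor
    · by_contra h
      have h4 := (hb (-n) (by linarith [not_le.1 h])).2
      rw [neg_neg, h1] at h4
      exact hn h4
    · by_contra h
      have h4 := (hb n (by linarith [not_le.1 h])).1
      rw [h1] at h4
      exact hn h4

/-- periodic functions which agree far away agree -/
theorem per_eq {Δ : Type} {g g' : ℤ → Δ} (hm : 0 < m) (hg : ∀ n : ℤ, g (n + m) = g n)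
    (hg' : ∀ n : ℤ, g' (n + m) = g' n) {b : ℤ} (h : ∀ n, b ≤ n → g n = g' n) : g = g' := by
  funext n
  have h0 : (1 : ℤ) ≤ m := by exact_mod_cast hm
  have hk : ∀ k : ℤ, b ≤ n + m * (|n| + |b|) := by
    intro _
    have h1 := abs_nonneg n
    have h2 := abs_nonneg b
    have h3 := neg_abs_le n
    have h4 := le_abs_self b
    nlinarith
  have e1 : g n = g (n + m * (|n| + |b|)) :=
    ev_per (b := min n b) (fun k _ => hg k) (min_le_left _ _) ((min_le_right _ _).trans (hk 0))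
      ⟨|n| + |b|, by ring⟩
  have e2 : g' n = g' (n + m * (|n| + |b|)) :=
    ev_per (b := min n b) (fun k _ => hg' k) (min_le_left _ _) ((min_le_right _ _).trans (hk 0))
      ⟨|n| + |b|, by ring⟩
  rw [e1, e2, h _ (hk 0)]

theorem iota_inj (hm : 0 < m) :
    Function.Injective ((MonoidHom.fst (U Γ) (U (Γ × Γ))).comp (Km Γ m).subtype) := by
  intro x y h
  have h1 : x.1.1 = y.1.1 := h
  obtain ⟨hx1, hx2, bx, hx3⟩ := x.2
  obtain ⟨hy1, hy2, bY, hy3⟩ := y.2
  have h2 : (fun n => (x.1.2.f n).1) = fun n => (y.1.2.f n).1 := by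
    apply per_eq hm (fun n => congrArg Prod.fst (hx2 n)) (fun n => congrArg Prod.fst (hy2 n))
      (b := max bx bY)
    intro n hn
    have e1 := (hx3 n ((le_max_left _ _).trans hn)).1
    have e2 := (hy3 n ((le_max_right _ _).trans hn)).1
    change (x.1.2.f n).1 = (y.1.2.f n).1
    rw [← e1, ← e2, h1]
  have h3 : (fun n => (x.1.2.f (-n)).2) = fun n => (y.1.2.f (-n)).2 := by
    apply per_eq hm (b := max bx bY)
    · intro n
      have e1 := hx2 (-(n + m))
      rw [show -(n + (m : ℤ)) + m = -n by ring] at e1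
      exact (congrArg Prod.snd e1).symm
    · intro n
      have e1 := hy2 (-(n + m))
      rw [show -(n + (m : ℤ)) + m = -n by ring] at e1
      exact (congrArg Prod.snd e1).symm
    · intro n hn
      have e1 := (hx3 n ((le_max_left _ _).trans hn)).2
      have e2 := (hy3 n ((le_max_right _ _).trans hn)).2
      change (x.1.2.f (-n)).2 = (y.1.2.f (-n)).2
      rw [← e1, ← e2, h1]
  refine Subtype.ext (Prod.ext h1 (U.ext (funext fun n => Prod.ext ?_ ?_) ?_))
  · exact congrFun h2 n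
  · have e1 := congrFun h3 (-n)
    simp only [neg_neg] at e1
    exact e1
  · rw [← hx1, ← hy1, h1]

/-- existence of the periodic functions -/
theorem exists_per (hm : 0 < m) {z : U Γ} {b : ℤ}
    (hz : ∀ n : ℤ, b ≤ n → z.f (n + m) = z.f n ∧ z.f (-n - m) = z.f (-n)) :
    ∃ y : U (Γ × Γ), (z, y) ∈ Km Γ m := by
  have h0 : (1 : ℤ) ≤ m := by exact_mod_cast hm
  have hk : ∀ n : ℤ, b ≤ n + m * (|n| + |b|) := by
    intro n
    have h1 := abs_nonneg n
    have h2 := abs_nonneg b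
    have h3 := neg_abs_le n
    have h4 := le_abs_self b
    nlinarith
  have hk' : ∀ n : ℤ, b ≤ -n + m * (|n| + |b|) := by
    intro n
    have h1 := hk (-n)
    rwa [abs_neg] at h1
  have hp : ∀ n : ℤ, b ≤ n → z.f (n + m) = z.f n := fun n hn => (hz n hn).1
  have hq : ∀ n : ℤ, b ≤ n → (fun k => z.f (-k)) (n + m) = (fun k => z.f (-k)) n := by
    intro n hn
    change z.f (-(n + m)) = z.f (-n)
    rw [show -(n + (m : ℤ)) = -n - m by ring]
    exact (hz n hn).2
  refine ⟨⟨fun n => (z.f (n + m * (|n| + |b|)), z.f (-(-n + m * (|n| + |b|)))), z.m⟩, rfl,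
    fun n => ?_, b, fun n hn => ⟨?_, ?_⟩⟩
  · refine Prod.ext ?_ ?_
    · exact ev_per hp (hk (n + m)) (hk n)
        ⟨|n| + |b| - 1 - (|n + m| + |b|), by ring⟩
    · exact ev_per (g := fun k => z.f (-k)) hq (hk' (n + m)) (hk' n)
        ⟨|n| + |b| + 1 - (|n + m| + |b|), by ring⟩
  · exact ev_per hp hn (hk n) ⟨|n| + |b|, by ring⟩
  · have h1 := hk n
    have e1 := ev_per (g := fun k => z.f (-k)) hq hn (A' := -(-n) + m * (|(-n)| + |b|))
      (by rw [neg_neg, abs_neg]; exact h1) ⟨|n| + |b|, by rw [neg_neg, abs_neg]; ring⟩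
    exact e1

end

/-- FJ-EPK -/
theorem t_epk (hI : S_INN) (h : S_PP) : S_EPK := by
  intro C hC Γ _ m hm hΓ K hK
  let ι : Km Γ m →* U Γ := (MonoidHom.fst (U Γ) (U (Γ × Γ))).comp (Km Γ m).subtype
  have hι : Function.Injective ι := iota_inj hm
  have hQ : C (Qp Γ m) := h C hC (Γ × Γ) m hm (hC.base.prod _ _ hΓ hΓ) (Qp Γ m) (fun x hx => hx)
  have hKm : C (Km Γ m) := lemA hI hC hΓ ι hι jm (fun f => rfl) qm jm_range hQ
  have hle : K ≤ ι.range := by
    intro z hz
    obtain ⟨b, hb⟩ := hK z hz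
    obtain ⟨y, hy⟩ := exists_per hm hb
    exact ⟨⟨(z, y), hy⟩, rfl⟩
  let e : Km Γ m ≃* ι.range := MonoidHom.ofInjective hι
  refine hC.base.of_injective _ _ (e.symm.toMonoidHom.comp (Subgroup.inclusion hle)) ?_ hKm
  exact e.symm.injective.comp (Subgroup.inclusion_injective hle)

end Pool.Agent.Y983.FJ.EPK

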